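import Pool.Agent.MP_41ddaf_co.H50.Geom

/-! Integer data of a polytope with 13 vertices and 22 congruent triangular facets. -/

namespace Pool.Agent.MP_41ddaf_co.H90

open Finset Pool.Agent.MP_41ddaf_co.H50

def X0 : Fin 13 → Fin 3 → ℤ :=
  ![![-1886070, -679617, -1932703],
    ![-1416984, -2294051, -458403],
    ![-3286012, 252935, 551349],
    ![-929446, 1301679, -1533533],
    ![1020666, -1224442, -2436735],
    ![636802, -2104771, 405389],
    ![-1879662, -672633, 2022914],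
    ![-958565, 2145759, 536897],
    ![1964558, 2123838, -137541],
    ![1992085, 707524, -1867656],
    ![2618765, -1071225, 465437],
    ![187810, 91728, 2398827],
    ![1936054, 1423275, 1985758]]

def B0 : Fin 13 → Fin 3 → Fin 33 → ℤ :=
  ![![![-442, 54, -753, -1144, 413, -259, 69, 56, -23, -39, 104, 37, -203, -148, 552, -127, -216, 39, -37, -21, 24, -9, 41, -5, -42, 100, -34, 20, 31, 77, -69, 14, 7],
      ![801, -308, -1207, 84, -334, 303, 1, -130, 36, -149, 428, -269, -226, 40, 288, -214, 26, 67, 119, 71, -39, -4, 77, -29, -106, 129, -39, 31, -10, -2, 17, -65, 62],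
      ![-1035, -1122, -455, -307, 374, -157, -258, 662, -324, -45, 408, -187, -49, 74, 124, 47, -72, -71, 25, -66, 123, -236, 115, -41, -26, 63, -28, 10, 16, 30, -7, -10, -100]],
    ![![129, -68, 9, 131, -618, -1088, -153, 262, -40, 31, -35, 64, -3, -15, 96, -257, 64, 374, -509, -137, 280, -113, -10, 22, 39, -22, -33, -56, -87, 23, -56, 171, -143],
      ![-700, 559, -367, 480, -564, -382, -474, -735, 529, -118, 63, -72, -47, 24, 0, -151, 84, 235, -132, -163, 361, 33, -96, 56, -33, -36, 4, -31, -36, 1, -27, 114, -39],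
      ![531, -134, 223, -279, 450, -644, -707, -67, 221, -33, 52, 20, 83, 15, -46, 158, -97, 6, -99, -286, 479, -162, -58, 44, 29, -80, 18, -34, 26, 50, -59, 137, -163]],
    ![![250, -190, 279, -120, -8, -11, 301, -336, -865, -787, -276, 300, 73, -107, 37, -21, -1, 5, -70, 168, -221, -372, 454, 17, -123, -220, 80, -21, -15, -10, 34, -101, -58],
      ![-311, 193, 57, 77, 67, 135, -435, 713, 379, -615, -276, 193, 39, -96, -44, 87, -30, -9, 154, -93, 230, -55, 86, 100, -112, -219, 101, -21, 39, 5, -9, 10, 4],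
      ![-228, 566, -348, 273, -13, 46, 36, 125, -927, -291, 458, -212, 7, 148, -42, -6, 70, -61, -6, 103, -116, -421, 344, -77, -69, 13, -16, 6, -29, -21, 61, -103, -115]],
    ![![-22, -69, 134, 109, 129, -64, 64, -22, -20, -38, 256, -132, -571, -411, -377, 464, -18, -20, -39, 16, -35, 17, 93, -37, -156, 355, 30, -22, 511, -114, -7, -12, 81],
      ![423, -542, 822, -620, -130, 175, -42, 15, 2, -302, 616, -59, 82, 192, 780, -536, -88, 89, 122, 41, 17, -66, 88, 14, -42, -125, -46, 45, -317, 113, -16, -48, -1],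
      ![-166, 333, -127, 181, 43, 6, -33, 128, -162, 713, -890, -828, -699, -51, -95, 228, 21, -41, 14, -2, -13, 13, -63, -181, -72, 710, -147, 39, 387, -84, 11, -31, 40]],
    ![![-362, 265, -357, 565, 381, -219, 93, -22, 22, -12, -25, 83, -110, -71, 338, -334, -344, 11, 37, -27, 20, 16, 8, 2, -7, 39, -65, 50, -128, 161, -99, 6, 6],
      ![-7, -131, 343, -169, 229, -142, 18, 56, -23, -17, 59, -183, 165, 385, -646, -940, -85, 253, -38, 24, 57, -46, -5, -14, 43, -100, -138, 62, -561, 182, -40, 0, -50],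
      ![301, -96, 156, -95, -417, 558, -137, 11, -1, -31, 61, -16, 66, 141, -97, -363, -691, -431, 625, -49, -6, -46, 14, -19, 14, -40, -97, 147, -309, 317, -120, -127, 15]],
    ![![169, -65, 40, 73, -318, 837, -505, 199, 75, 13, -22, 62, 13, -15, 63, -185, 156, 53, -529, -57, 616, -304, -23, 50, 51, -44, -43, -63, -62, -27, -2, 120, -218],
      ![-178, 153, -66, 135, 371, -493, 472, -188, 99, 12, -17, -54, 6, -20, -65, 10, 565, -824, -1210, -857, -563, 710, -109, -4, -28, -30, 179, -259, 158, -123, -186, 748, 15],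
      ![320, -53, 83, -67, -468, 592, -77, -35, 44, -19, 38, 21, 33, 23, 46, -49, -422, 1000, 185, -326, -117, 145, -23, -9, 0, -29, 4, 32, -77, 198, -152, 120, 5]],
    ![![105, 48, 32, 46, -97, 293, -18, -66, 352, 9, -5, 73, 29, -8, 27, -92, 74, -62, -11, 434, -558, -1079, -161, 175, 108, -103, -170, 41, -107, -61, 186, -297, -446],
      ![-29, 28, 105, -37, 116, -239, 319, -21, -336, 429, -213, 71, 25, -64, -43, 64, -45, 54, 52, -152, 388, -476, -801, 313, 187, -123, -128, 4, -28, 7, 37, 37, -388],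
      ![87, 235, -82, 43, 102, -480, 815, -595, 859, -394, 238, -72, 41, 74, -31, 47, -11, 43, -126, -187, 306, -10, 375, -95, -102, -39, 79, -38, 17, 30, -56, 101, 8]],
    ![![30, -28, 190, -5, 38, -3, 54, 19, -55, 290, -65, -222, 413, -161, -84, 54, -13, -9, -57, 35, -78, 184, 59, -156, -469, -681, 472, -106, -29, 33, -77, 2, 373],
      ![-39, -10, 170, -67, 10, 125, -132, 277, -610, 707, -542, 847, -383, -30, 107, -5, -15, 10, 137, 70, 55, -733, 567, 311, 313, 351, -381, 84, 57, -48, 127, -116, -524],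
      ![23, 116, 140, -46, -15, 28, 3, 22, 87, 306, -423, 1217, -495, 43, 184, 6, -9, -9, 7, -14, -29, 287, -259, -304, -220, 502, -4, 22, 227, -17, -48, -4, 257]],
    ![![23, -56, 199, 11, 58, -19, 47, 20, -79, 217, 27, -507, 613, -220, -144, 130, -4, -14, -61, 25, -59, 79, 105, -99, -332, 822, 265, -149, 78, 20, -17, 5, 220],
      ![-1, -7, 70, 3, 76, 96, 10, 28, -5, -7, -22, -170, 210, -212, -89, 480, -170, 45, 247, 99, -16, 61, 16, 7, -204, 96, 457, 878, 731, -398, -357, -188, 315],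
      ![-9, -9, 182, 18, 69, -41, -29, 35, -37, 12, -41, 15, 353, -208, -67, 321, 39, -29, -14, -57, 56, -192, -45, -47, 390, -389, -930, -187, 667, -61, 231, 15, -436]],
    ![![-97, -2, 26, 213, 189, -103, 73, -26, -6, -58, 221, -51, -422, 1210, -567, 743, -71, -13, -26, 8, -23, 11, 75, -23, -109, 245, -11, 20, 290, -97, -26, -13, 54],
      ![-63, -28, 166, -36, 216, -61, -8, 59, 3, -4, -40, -113, 252, -147, -233, 1036, -522, 179, 160, -20, 84, -19, -34, 6, 42, -160, -37, -49, -508, 685, -124, 17, -21],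
      ![40, 9, 100, 53, -43, 87, -14, 8, -43, 5, -22, -24, 302, -239, 43, -125, 326, -139, 58, 41, -26, -128, -4, -45, 192, -188, -530, 574, -1205, -950, 40, -153, -163]],
    ![![73, 4, 14, 113, -136, 471, -245, 87, 113, 49, -25, 65, 6, 25, 46, -297, 408, -311, 1112, -540, 315, 33, -82, 30, 138, -56, -221, 97, -225, 61, 120, 606, -380],
      ![22, 15, -8, 47, 1, 234, -34, 26, 31, -55, -12, -58, 20, -101, -32, 248, 23, -55, 491, 38, 18, 76, -2, 35, -192, -8, 524, -572, 485, -303, -415, -153, 314],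
      ![60, 39, -30, 143, -120, 158, 52, -48, -54, -62, 65, -13, 10, 114, 32, -446, 612, -238, 5, 233, -166, -61, 63, -37, -53, 8, -46, 155, -311, 398, -221, -449, 209]],
    ![![85, 68, 55, 22, -35, 131, 107, -116, 366, 69, -33, 100, 45, -19, 15, -52, 12, -52, 214, 13, -129, 901, -379, 388, 94, -149, -183, 79, -119, -60, 238, -446, -474],
      ![33, 35, -10, 27, -7, 37, 210, -51, -128, 156, -63, -52, -48, 5, -19, -39, 79, 28, -303, 604, -385, 247, 178, -744, 404, 58, -295, -17, -61, -18, 36, 189, -632],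
      ![68, 107, 24, 41, 12, -151, 348, -257, 359, -165, 86, 27, 101, -5, -16, 35, 80, 38, -646, 588, -482, 927, -418, 882, -466, -150, 494, -202, 151, 75, -342, 608, 660]],
    ![![59, 39, 131, -13, 2, 33, 113, -56, 159, 256, -122, 129, 114, -62, -2, -25, -46, 0, -23, 83, -153, 636, -182, -364, 810, -286, -87, 108, -137, -6, -226, -55, 978],
      ![49, 43, -75, 74, -51, 212, 96, -48, 25, -38, 19, -81, -94, 23, -3, -40, 178, -73, 201, 337, -206, 273, 35, -52, -273, 166, -201, -155, 51, -101, 957, -545, 945],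
      ![9, 9, 133, 42, 26, -2, 0, 9, -24, 2, -29, 53, 246, -129, -37, 147, 153, -68, -29, 23, -8, -114, -42, -70, 383, -381, 1204, -525, 440, 36, 662, -103, -217]]]

def src : Fin 33 → Fin 13 :=
  ![0, 0, 0, 0, 1, 1, 1, 1, 2, 2, 2, 3, 3, 3, 3, 4, 4, 4, 5, 5, 5, 6, 6, 7, 7, 7, 8, 8, 8, 9, 10, 10, 11]

def tgt : Fin 33 → Fin 13 :=
  ![1, 2, 3, 4, 4, 5, 6, 2, 6, 7, 3, 7, 8, 9, 4, 9, 10, 5, 10, 11, 6, 11, 7, 11, 12, 8, 12, 10, 9, 10, 12, 11, 12]

def len : Fin 33 → ℤ :=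
  ![5, 9, 5, 9, 11, 5, 9, 11, 5, 9, 11, 5, 11, 9, 11, 5, 11, 9, 5, 9, 11, 5, 11, 9, 11, 9, 5, 11, 5, 9, 9, 11, 5]

def f1 : Fin 22 → Fin 13 :=
  ![0, 0, 0, 0, 5, 1, 6, 2, 7, 7, 9, 9, 9, 5, 5, 11, 11, 11, 8, 9, 12, 12]

def f2 : Fin 22 → Fin 13 :=
  ![1, 3, 3, 1, 1, 5, 2, 6, 3, 3, 8, 4, 4, 10, 10, 6, 6, 12, 12, 8, 8, 11]

def f3 : Fin 22 → Fin 13 :=
  ![2, 2, 4, 4, 4, 6, 1, 7, 2, 8, 3, 3, 10, 4, 11, 5, 7, 7, 7, 10, 10, 10]

def sg : Fin 22 → ℤ :=
  ![-1, 1, -1, 1, -1, -1, -1, -1, -1, 1, 1, -1, 1, 1, -1, -1, 1, -1, 1, -1, 1, -1]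

def W0 : Fin 13 → Fin 3 → ℤ :=
  ![![-60, -15, -79],
    ![-43, -90, -10],
    ![-98, 18, -4],
    ![-27, 65, -71],
    ![25, -52, -82],
    ![21, -91, 36],
    ![-42, -30, 86],
    ![-33, 86, 39],
    ![55, 81, -20],
    ![62, 32, -72],
    ![90, -39, 19],
    ![7, -14, 99],
    ![47, 50, 73]]

def Ad : Fin 13 → Fin 13 → ℕ :=
  ![![0, 1, 1, 1, 1, 0, 0, 0, 0, 0, 0, 0, 0],
    ![1, 0, 1, 0, 1, 1, 1, 0, 0, 0, 0, 0, 0],
    ![1, 1, 0, 1, 0, 0, 1, 1, 0, 0, 0, 0, 0],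
    ![1, 0, 1, 0, 1, 0, 0, 1, 1, 1, 0, 0, 0],
    ![1, 1, 0, 1, 0, 1, 0, 0, 0, 1, 1, 0, 0],
    ![0, 1, 0, 0, 1, 0, 1, 0, 0, 0, 1, 1, 0],
    ![0, 1, 1, 0, 0, 1, 0, 1, 0, 0, 0, 1, 0],
    ![0, 0, 1, 1, 0, 0, 1, 0, 1, 0, 0, 1, 1],
    ![0, 0, 0, 1, 0, 0, 0, 1, 0, 1, 1, 0, 1],
    ![0, 0, 0, 1, 1, 0, 0, 0, 1, 0, 1, 0, 0],
    ![0, 0, 0, 0, 1, 1, 0, 0, 1, 1, 0, 1, 1],
    ![0, 0, 0, 0, 0, 1, 1, 1, 0, 0, 1, 0, 1],
    ![0, 0, 0, 0, 0, 0, 0, 1, 1, 0, 1, 1, 0]]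

def u1 : Fin 13 → ℕ := ![4, 5, 5, 6, 6, 5, 5, 6, 5, 4, 6, 5, 4]

def u2 : Fin 13 → ℕ := ![22, 25, 26, 30, 30, 27, 26, 30, 26, 23, 29, 26, 22]

def u3 : Fin 13 → ℕ := ![111, 131, 133, 157, 156, 136, 134, 156, 134, 115, 154, 134, 111]

def u4 : Fin 13 → ℕ := ![577, 670, 689, 805, 804, 709, 690, 803, 693, 601, 786, 691, 578]

def dX (i j : Fin 13) : Fin 3 → ℤ := fun k => X0 i k - X0 j k

def D0 (i j k m : Fin 13) : ℤ := det3 (dX j i) (dX k i) (dX m i)

def Q0 (i j : Fin 13) : ℤ := ∑ k, (X0 i k - X0 j k) ^ 2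

/-- The vertex `i` lies on the triangle `f`. -/
abbrev On (f : Fin 22) (i : Fin 13) : Prop := i = f1 f ∨ i = f2 f ∨ i = f3 f

theorem chk_N : ∀ v k, ∑ e, |B0 v k e| ≤ 10000 := by decide +kernel

theorem chk_J : ∀ e, ∑ e', |2 * (∑ k, (X0 (src e) k - X0 (tgt e) k) *
    (B0 (src e) k e' - B0 (tgt e) k e')) - (if e = e' then 10000000000 else 0)| ≤
    2500000000 := by
  decide +kernel

theorem chk_r : ∀ e,
    |len e * 1000000000000 - ∑ k, (X0 (src e) k - X0 (tgt e) k) ^ 2| ≤ 10000000 := by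
  decide +kernel

theorem chk_M : ∀ i j k, |X0 i k - X0 j k| ≤ 5999960 := by decide +kernel

theorem chk_W : ∀ i k, |W0 i k| ≤ 100 := by decide +kernel

theorem chk_sg : ∀ f, sg f = 1 ∨ sg f = -1 := by decide +kernel

theorem chk_face : ∀ f m, m ≠ f1 f → m ≠ f2 f → m ≠ f3 f →
    100000000000000000 < sg f * D0 (f1 f) (f2 f) (f3 f) m := by decide +kernel

theorem chk_non : ∀ i j k : Fin 13, i ≠ j → i ≠ k → j ≠ k →
    (∃ f, On f i ∧ On f j ∧ On f k) ∨
    ((∃ m, 100000000000000000 < D0 i j k m) ∧ ∃ m, D0 i j k m < -100000000000000000) := by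
  decide +kernel

theorem chk_edge : ∀ f,
    (∃ e, len e = 5 ∧ ((src e = f1 f ∧ tgt e = f2 f) ∨ (src e = f2 f ∧ tgt e = f1 f))) ∧
    (∃ e, len e = 9 ∧ ((src e = f1 f ∧ tgt e = f3 f) ∨ (src e = f3 f ∧ tgt e = f1 f))) ∧
    (∃ e, len e = 11 ∧ ((src e = f2 f ∧ tgt e = f3 f) ∨ (src e = f3 f ∧ tgt e = f2 f))) := by
  decide +kernel

theorem chk_exp : ∀ i j, j ≠ i → 1000000 < ∑ k, W0 i k * (X0 i k - X0 j k) := by
  decide +kernel

theorem chk_sig : ∀ i i', i ≠ i' → ∃ j, ∀ j', 100000000000 < |Q0 i' j' - Q0 i j| := by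
  decide +kernel

theorem chk_out : ∀ f, ∃ m, m ≠ f1 f ∧ m ≠ f2 f ∧ m ≠ f3 f := by decide +kernel

theorem chk_Ad : ∀ i j, Ad i j =
    if ∃ k, (i ≠ j ∧ i ≠ k ∧ j ≠ k) ∧ ∃ f, On f i ∧ On f j ∧ On f k then 1 else 0 := by
  decide +kernel

theorem chk_u1 : ∀ i, u1 i = ∑ j, Ad i j * 1 := by decide +kernel

theorem chk_u2 : ∀ i, u2 i = ∑ j, Ad i j * u1 j := by decide +kernel

theorem chk_u3 : ∀ i, u3 i = ∑ j, Ad i j * u2 j := by decide +kernel

theorem chk_u4 : ∀ i, u4 i = ∑ j, Ad i j * u3 j := by decide +kernel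

theorem chk_inj : ∀ i j, u4 i = u4 j → i = j := by decide +kernel

end Pool.Agent.MP_41ddaf_co.H90
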