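import Pool.Agent.MP_41ddaf_co.H50.Geom

/-! Automorphisms of the face lattice of a simplicial polytope act on the vertices. -/

namespace Pool.Agent.MP_41ddaf_co.H90

open Pool.Agent.MP_41ddaf_co.H50

variable {ι : Type} [Fintype ι] (p : ι → E3)

/-- The faces of the hull of the points. -/
abbrev Fc : Type := {F : Set E3 // IsExposed ℝ (convexHull ℝ (Set.range p)) F}

/-- The face cut out by a functional. -/
def fc (l : E3 →L[ℝ] ℝ) : Fc p :=
  ⟨{x | x ∈ convexHull ℝ (Set.range p) ∧ ∀ y ∈ convexHull ℝ (Set.range p), l y ≤ l x},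
    fun _ => ⟨l, rfl⟩⟩

theorem mem_fc (l : E3 →L[ℝ] ℝ) (i : ι) : p i ∈ (fc p l).1 ↔ ∀ j, l (p j) ≤ l (p i) := by
  constructor
  · exact fun h j => h.2 _ (subset_convexHull ℝ _ ⟨j, rfl⟩)
  · intro h
    exact (face_eq p l).ge (subset_convexHull ℝ _ ⟨i, h, rfl⟩)

omit [Fintype ι] in
theorem exists_fc (F : Fc p) (h : F.1.Nonempty) : ∃ l, F = fc p l := by
  obtain ⟨l, hl⟩ := F.2 h
  exact ⟨l, Subtype.ext hl⟩

theorem face_hull (F : Fc p) : F.1 = convexHull ℝ (p '' {i | p i ∈ F.1}) := by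
  rcases F.1.eq_empty_or_nonempty with h | h
  · rw [h]; simp
  · obtain ⟨l, rfl⟩ := exists_fc p F h
    simp only [mem_fc]
    exact face_eq p l

theorem face_ext {F G : Fc p} (h : ∀ i, p i ∈ F.1 ↔ p i ∈ G.1) : F = G := by
  apply Subtype.ext
  rw [face_hull p F, face_hull p G]
  simp only [h]

theorem exists_vertex (F : Fc p) (h : F.1.Nonempty) : ∃ i, p i ∈ F.1 := by
  by_contra hc
  push Not at hc
  rw [face_hull p F] at h
  simp [hc] at h

omit [Fintype ι] in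
theorem map_nonempty (φ : Fc p ≃o Fc p) (F : Fc p) (h : F.1.Nonempty) : (φ F).1.Nonempty := by
  by_contra hc
  have h1 : φ F ≤ φ ⟨∅, isExposed_empty⟩ := by
    change (φ F).1 ⊆ _
    rw [Set.not_nonempty_iff_eq_empty.1 hc]
    exact Set.empty_subset _
  exact h.ne_empty (Set.subset_empty_iff.1 (φ.le_iff_le.1 h1))

theorem exists_perm (hexp : ∀ i, ∃ l : E3 →L[ℝ] ℝ, ∀ j, j ≠ i → l (p j) < l (p i))
    (φ : Fc p ≃o Fc p) :
    ∃ σ : Equiv.Perm ι, ∀ (F : Fc p) (i : ι), p (σ i) ∈ (φ F).1 ↔ p i ∈ F.1 := by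
  have hv : ∀ i, ∃ v : Fc p, v.1 = {p i} ∧ ∀ j, p j ∈ v.1 → j = i := fun i => by
    obtain ⟨l, hl⟩ := hexp i
    have h1 : ∀ j, p j ∈ (fc p l).1 ↔ j = i := fun j => by
      rw [mem_fc]
      constructor
      · intro h
        by_contra hc
        exact absurd (h i) (not_le.2 (hl j hc))
      · rintro rfl k
        by_cases hk : k = j
        · rw [hk]
        · exact (hl k hk).le
    refine ⟨fc p l, ?_, fun j => (h1 j).1⟩
    rw [face_hull p (fc p l)]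
    simp only [h1]
    simp
  choose v hv hv' using hv
  have hle : ∀ (F : Fc p) i, v i ≤ F ↔ p i ∈ F.1 := fun F i => by
    change (v i).1 ⊆ F.1 ↔ _
    rw [hv, Set.singleton_subset_iff]
  have hne : ∀ i, (v i).1.Nonempty := fun i => by rw [hv]; exact Set.singleton_nonempty _
  have hinj : ∀ i j, v i = v j → i = j := fun i j e => hv' j i (e ▸ (hle _ i).1 le_rfl)
  have key : ∀ (ψ : Fc p ≃o Fc p) i, ∃ j, ψ (v i) = v j := fun ψ i => by
    obtain ⟨j, hj⟩ := exists_vertex p _ (map_nonempty p ψ _ (hne i))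
    have h1 : ψ.symm (v j) ≤ v i := ψ.symm_apply_le.2 ((hle _ j).2 hj)
    obtain ⟨k, hk⟩ := exists_vertex p _ (map_nonempty p ψ.symm _ (hne j))
    obtain rfl : k = i := hv' i k (h1 hk)
    exact ⟨j, by rw [← le_antisymm h1 ((hle _ k).2 hk), OrderIso.apply_symm_apply]⟩
  choose s hs using key φ
  choose t ht using key φ.symm
  refine ⟨⟨s, t, fun i => hinj _ _ ?_, fun i => hinj _ _ ?_⟩, fun F i => ?_⟩
  · rw [← ht, ← hs, OrderIso.symm_apply_apply]
  · rw [← hs, ← ht, OrderIso.apply_symm_apply]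
  · rw [← hle, ← hle, Equiv.coe_fn_mk, ← hs, φ.le_iff_le]

/-- Three vertices lie in a common proper face. -/
def Tri (i j k : ι) : Prop := ∃ F : Fc p, p i ∈ F.1 ∧ p j ∈ F.1 ∧ p k ∈ F.1 ∧ ∃ m, p m ∉ F.1

theorem lattice_rigid (hexp : ∀ i, ∃ l : E3 →L[ℝ] ℝ, ∀ j, j ≠ i → l (p j) < l (p i))
    (hrig : ∀ σ : Equiv.Perm ι, (∀ i j k, Tri p (σ i) (σ j) (σ k) ↔ Tri p i j k) → ∀ i, σ i = i)
    (φ : Fc p ≃o Fc p) (F : Fc p) : φ F = F := by
  obtain ⟨σ, hσ⟩ := exists_perm p hexp φ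
  have h := hrig σ fun i j k => ⟨?_, ?_⟩
  · refine face_ext p fun i => ?_
    rw [← hσ F i, h i]
  · rintro ⟨G, h1, h2, h3, m, hm⟩
    obtain ⟨G, rfl⟩ := φ.surjective G
    obtain ⟨m, rfl⟩ := σ.surjective m
    exact ⟨G, (hσ G i).1 h1, (hσ G j).1 h2, (hσ G k).1 h3, m, mt (hσ G m).2 hm⟩
  · rintro ⟨G, h1, h2, h3, m, hm⟩
    exact ⟨φ G, (hσ G i).2 h1, (hσ G j).2 h2, (hσ G k).2 h3, σ m, mt (hσ G m).1 hm⟩

theorem not_tri {i j k m m' : ι} (hm : 0 < detE (p j - p i) (p k - p i) (p m - p i))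
    (hm' : detE (p j - p i) (p k - p i) (p m' - p i) < 0) : ¬ Tri p i j k := by
  rintro ⟨F, h1, h2, h3, n, hn⟩
  obtain ⟨l, rfl⟩ := exists_fc p F ⟨_, h1⟩
  rw [mem_fc] at h1 h2 h3 hn
  have e2 : l (p j - p i) = 0 := by rw [map_sub, le_antisymm (h1 j) (h2 i), sub_self]
  have e3 : l (p k - p i) = 0 := by rw [map_sub, le_antisymm (h1 k) (h3 i), sub_self]
  have c := cramer l (p j - p i) (p k - p i) (p m - p i) (p m' - p i)
  rw [e2, e3] at c
  have n1 : l (p m - p i) ≤ 0 := by rw [map_sub, sub_nonpos]; exact h1 m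
  have n2 : l (p m' - p i) ≤ 0 := by rw [map_sub, sub_nonpos]; exact h1 m'
  have n3 : l (p m - p i) = 0 := by
    by_contra hc
    have n4 : l (p m - p i) < 0 := lt_of_le_of_ne n1 hc
    nlinarith [mul_pos_of_neg_of_neg hm' n4, mul_nonneg hm.le (neg_nonneg.2 n2)]
  have hl : ∀ z, l z = 0 := fun z => by
    have := cramer l (p j - p i) (p k - p i) (p m - p i) z
    rw [e2, e3, n3] at this
    simpa [hm.ne'] using this
  exact hn fun j => by rw [hl, hl]

/-- The determinant as a functional of the last vector. -/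
noncomputable def detL (u v : E3) : E3 →L[ℝ] ℝ :=
  (u 1 * v 2 - u 2 * v 1) • EuclideanSpace.proj 0 + (u 2 * v 0 - u 0 * v 2) • EuclideanSpace.proj 1 +
    (u 0 * v 1 - u 1 * v 0) • EuclideanSpace.proj 2

theorem detL_apply (u v w : E3) : detL u v w = detE u v w := by
  simp only [detL, detE, det3, add_apply, smul_apply, EuclideanSpace.coe_proj, smul_eq_mul]
  ring

theorem tri_of {a b c : ι} {s : ℝ}
    (h : ∀ m, m ≠ a → m ≠ b → m ≠ c → 0 < s * detE (p b - p a) (p c - p a) (p m - p a))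
    (hm : ∃ m, m ≠ a ∧ m ≠ b ∧ m ≠ c) {i j k : ι} (hi : i = a ∨ i = b ∨ i = c)
    (hj : j = a ∨ j = b ∨ j = c) (hk : k = a ∨ k = b ∨ k = c) : Tri p i j k := by
  let l : E3 →L[ℝ] ℝ := (-s) • detL (p b - p a) (p c - p a)
  have hl : ∀ m, l (p m) = l (p a) - s * detE (p b - p a) (p c - p a) (p m - p a) := fun m => by
    simp only [l, smul_apply, smul_eq_mul, ← detL_apply, map_sub]
    ring
  have h0 : ∀ m, m = a ∨ m = b ∨ m = c → l (p m) = l (p a) := fun m hm => by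
    rw [hl m]
    rcases hm with rfl | rfl | rfl <;> simp only [detE, det3, sub_self] <;> simp <;> ring_nf <;> simp
  have h1 : ∀ m, l (p m) ≤ l (p a) := fun m => by
    by_cases e : m = a ∨ m = b ∨ m = c
    · exact (h0 m e).le
    · push Not at e
      linarith [hl m, h m e.1 e.2.1 e.2.2]
  have h2 : ∀ m, m = a ∨ m = b ∨ m = c → p m ∈ (fc p l).1 := fun m hm =>
    (mem_fc p l m).2 fun n => (h1 n).trans (h0 m hm).ge
  obtain ⟨m, e1, e2, e3⟩ := hm
  refine ⟨fc p l, h2 i hi, h2 j hj, h2 k hk, m, fun e => ?_⟩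
  linarith [(mem_fc p l m).1 e a, hl m, h m e1 e2 e3]

omit p in
theorem walk_inv (A : ι → ι → ℕ) (σ : Equiv.Perm ι) (hA : ∀ i j, A (σ i) (σ j) = A i j)
    {u w : ι → ℕ} (hw : ∀ i, w i = ∑ j, A i j * u j) (hu : ∀ i, u (σ i) = u i) (i : ι) :
    w (σ i) = w i := by
  rw [hw, hw, ← Equiv.sum_comp σ]
  simp only [hA, hu]

end Pool.Agent.MP_41ddaf_co.H90
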