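import Pool.Agent.MP_41ddaf_co.H50.Main
import Pool.Agent.MP_41ddaf_co.H90.Data
import Pool.Agent.MP_41ddaf_co.H90.Lat

/-! A congruent-faced polytope whose face lattice has no automorphism but the identity. -/

namespace Pool.Agent.MP_41ddaf_co.H90

open Finset
open Pool.Agent.MP_41ddaf_co.H50 (E3 det3 detE exists_sol det3_pert main_geom)

theorem exists_points : ∃ p : Fin 13 → Fin 3 → ℝ, (∀ v k, |p v k - X0 v k| ≤ 20) ∧
    ∀ e, ∑ k, (p (src e) k - p (tgt e) k) ^ 2 = len e * 1000000000000 := by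
  have := exists_sol (fun v k => (X0 v k : ℝ)) (fun v k e => (B0 v k e : ℝ) / 10000000000) src tgt
    (fun e => (len e : ℝ) * 1000000000000) (1 / 1000000) 20000000 (by norm_num) (by norm_num)
    ?_ ?_ (by norm_num) ?_
  · obtain ⟨p, h1, h2⟩ := this
    refine ⟨p, fun v k => ?_, h2⟩
    have := h1 v k
    norm_num at this
    exact this
  · intro v k
    have h : ((∑ e, |B0 v k e| : ℤ) : ℝ) ≤ ((10000 : ℤ) : ℝ) := Int.cast_le.2 (chk_N v k)
    push_cast at h
    simp only [abs_div]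
    rw [← Finset.sum_div, div_le_iff₀ (by norm_num)]
    norm_num
    exact h
  · intro e
    have h : ((∑ e', |2 * (∑ k, (X0 (src e) k - X0 (tgt e) k) *
      (B0 (src e) k e' - B0 (tgt e) k e')) - (if e = e' then 10000000000 else 0)| : ℤ) : ℝ) ≤
      ((2500000000 : ℤ) : ℝ) := Int.cast_le.2 (chk_J e)
    push_cast at h
    have e1 : ∀ e', |2 * (∑ k, ((X0 (src e) k : ℝ) - X0 (tgt e) k) *
        ((B0 (src e) k e' : ℝ) / 10000000000 - (B0 (tgt e) k e' : ℝ) / 10000000000)) -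
        (if e = e' then 1 else 0)| = |2 * (∑ k, ((X0 (src e) k : ℝ) - X0 (tgt e) k) *
        ((B0 (src e) k e' : ℝ) - B0 (tgt e) k e')) - (if e = e' then 10000000000 else 0)| /
        10000000000 := by
      intro e'
      have : (10000000000 : ℝ) = |10000000000| := by norm_num
      rw [eq_div_iff (by norm_num)]
      conv_lhs => rw [this, ← abs_mul, ← this]
      congr 1
      simp only [Fin.sum_univ_three]
      split_ifs <;> ring
    simp only [e1]
    rw [← Finset.sum_div, div_le_iff₀ (by norm_num)]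
    linarith
  · intro e
    have h : ((|len e * 1000000000000 - ∑ k, (X0 (src e) k - X0 (tgt e) k) ^ 2| : ℤ) : ℝ) ≤
      ((10000000 : ℤ) : ℝ) := Int.cast_le.2 (chk_r e)
    push_cast at h
    norm_num
    exact h

theorem triple_eq {i j k a b c : Fin 13} (hij : i ≠ j) (hik : i ≠ k) (hjk : j ≠ k)
    (hi : i = a ∨ i = b ∨ i = c) (hj : j = a ∨ j = b ∨ j = c) (hk : k = a ∨ k = b ∨ k = c) :
    ({i, j, k} : Finset (Fin 13)) = {a, b, c} := by
  refine Finset.eq_of_subset_of_card_le ?_ ?_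
  · intro x hx
    simp only [Finset.mem_insert, Finset.mem_singleton] at hx ⊢
    rcases hx with rfl | rfl | rfl <;> assumption
  · rw [Finset.card_eq_three.2 ⟨i, j, k, hij, hik, hjk, rfl⟩]
    exact Finset.card_le_three

theorem rigid (T : Fin 13 → Fin 13 → Fin 13 → Prop)
    (hT : ∀ i j k, i ≠ j → i ≠ k → j ≠ k → (T i j k ↔ ∃ f, On f i ∧ On f j ∧ On f k))
    (σ : Equiv.Perm (Fin 13)) (hσ : ∀ i j k, T (σ i) (σ j) (σ k) ↔ T i j k) (i : Fin 13) :
    σ i = i := by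
  have h1 : ∀ i j, (∃ k, (i ≠ j ∧ i ≠ k ∧ j ≠ k) ∧ ∃ f, On f i ∧ On f j ∧ On f k) ↔
      ∃ k, (i ≠ j ∧ i ≠ k ∧ j ≠ k) ∧ T i j k := fun i j =>
    exists_congr fun k => and_congr_right fun h => (hT i j k h.1 h.2.1 h.2.2).symm
  have hA : ∀ i j, Ad (σ i) (σ j) = Ad i j := fun i j => by
    rw [chk_Ad, chk_Ad]
    refine if_congr ?_ rfl rfl
    rw [h1, h1, σ.surjective.exists]
    simp only [ne_eq, EmbeddingLike.apply_eq_iff_eq, hσ]
  have a1 := walk_inv Ad σ hA (u := fun _ => 1) chk_u1 fun _ => rfl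
  have a2 := walk_inv Ad σ hA chk_u2 a1
  have a3 := walk_inv Ad σ hA chk_u3 a2
  exact chk_inj _ _ (walk_inv Ad σ hA chk_u4 a3 i)

theorem main : ∃ p : Fin 13 → E3,
    ((interior (convexHull ℝ (Set.range p))).Nonempty ∧
    (∀ F G : Set E3,
      (∃ l : E3 →L[ℝ] ℝ, F = {x | x ∈ convexHull ℝ (Set.range p) ∧
        ∀ y ∈ convexHull ℝ (Set.range p), l y ≤ l x}) →
      Module.finrank ℝ (vectorSpan ℝ F) = 2 →
      (∃ l : E3 →L[ℝ] ℝ, G = {x | x ∈ convexHull ℝ (Set.range p) ∧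
        ∀ y ∈ convexHull ℝ (Set.range p), l y ≤ l x}) →
      Module.finrank ℝ (vectorSpan ℝ G) = 2 →
      ∃ φ : E3 ≃ᵢ E3, φ '' F = G) ∧
    ∀ φ : E3 ≃ᵢ E3, φ '' convexHull ℝ (Set.range p) = convexHull ℝ (Set.range p) →
      φ = IsometryEquiv.refl E3) ∧
    ∀ (φ : Fc p ≃o Fc p) (F : Fc p), φ F = F := by
  obtain ⟨q, hq, hlen⟩ := exists_points
  let p : Fin 13 → E3 := fun i => WithLp.toLp 2 (q i)
  have hd : ∀ i j k, |(q i k - q j k) - ((dX i j k : ℤ) : ℝ)| ≤ 40 := by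
    intro i j k
    have h1 := abs_le.1 (hq i k)
    have h2 := abs_le.1 (hq j k)
    simp only [dX]
    push_cast
    rw [abs_le]
    constructor <;> linarith [h1.1, h1.2, h2.1, h2.2]
  have hM0 : ∀ i j k, |((dX i j k : ℤ) : ℝ)| ≤ 5999960 := by
    intro i j k
    have h : ((|X0 i k - X0 j k| : ℤ) : ℝ) ≤ ((5999960 : ℤ) : ℝ) := Int.cast_le.2 (chk_M i j k)
    simp only [dX]
    push_cast at h ⊢
    exact h
  have hM1 : ∀ i j k, |((dX i j k : ℤ) : ℝ)| ≤ 6000000 :=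
    fun i j k => (hM0 i j k).trans (by norm_num)
  have hM : ∀ i j k, |q i k - q j k| ≤ 6000000 := by
    intro i j k
    have h1 := abs_le.1 (hd i j k)
    have h2 := abs_le.1 (hM0 i j k)
    rw [abs_le]
    constructor <;> linarith [h1.1, h1.2, h2.1, h2.2]
  have hdet : ∀ i j k m, |detE (p j - p i) (p k - p i) (p m - p i) - (D0 i j k m : ℝ)| ≤
      25920000000000000 := by
    intro i j k m
    have := det3_pert (fun t => q j t - q i t) (fun t => q k t - q i t) (fun t => q m t - q i t)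
      (fun t => (dX j i t : ℝ)) (fun t => (dX k i t : ℝ)) (fun t => (dX m i t : ℝ)) 6000000 40
      (by norm_num) (by norm_num) (hM k i) (hM m i) (hM1 j i) (hM1 k i) (hd j i) (hd k i) (hd m i)
    have e1 : (D0 i j k m : ℝ) = det3 (fun t => (dX j i t : ℝ)) (fun t => (dX k i t : ℝ))
        (fun t => (dX m i t : ℝ)) := by
      simp only [D0, det3]
      push_cast
      ring
    have e2 : detE (p j - p i) (p k - p i) (p m - p i) = det3 (fun t => q j t - q i t)
        (fun t => q k t - q i t) (fun t => q m t - q i t) := rfl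
    rw [e1, e2]
    norm_num at this ⊢
    exact this
  have hdist : ∀ i j, dist (p i) (p j) ^ 2 = ∑ k, (q i k - q j k) ^ 2 := by
    intro i j
    rw [EuclideanSpace.dist_eq, Real.sq_sqrt (Finset.sum_nonneg fun _ _ => sq_nonneg _)]
    refine Finset.sum_congr rfl fun k _ => ?_
    rw [Real.dist_eq, sq_abs]
  have hQ : ∀ i j, |dist (p i) (p j) ^ 2 - (Q0 i j : ℝ)| ≤ 1440000000 := by
    intro i j
    have e1 : (Q0 i j : ℝ) = ∑ k, ((dX i j k : ℤ) : ℝ) ^ 2 := by
      simp only [Q0, dX]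
      push_cast
      rfl
    have b : ∀ k, |(q i k - q j k) ^ 2 - ((dX i j k : ℤ) : ℝ) ^ 2| ≤ 40 * 12000000 := by
      intro k
      rw [sq_sub_sq, mul_comm, abs_mul]
      refine mul_le_mul (hd i j k) ((abs_add_le _ _).trans ?_) (abs_nonneg _) (by norm_num)
      linarith [hM i j k, hM1 i j k]
    rw [hdist, e1, Fin.sum_univ_three, Fin.sum_univ_three, abs_le]
    have b0 := abs_le.1 (b 0)
    have b1 := abs_le.1 (b 1)
    have b2 := abs_le.1 (b 2)
    constructor <;> linarith [b0.1, b0.2, b1.1, b1.2, b2.1, b2.2]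
  have hedge : ∀ (a b : Fin 13) (c : ℤ),
      (∃ e, len e = c ∧ ((src e = a ∧ tgt e = b) ∨ (src e = b ∧ tgt e = a))) →
      dist (p a) (p b) = √(c * 1000000000000) := by
    rintro a b c ⟨e, rfl, h⟩
    rw [← hlen e, ← hdist, Real.sqrt_sq dist_nonneg]
    rcases h with ⟨rfl, rfl⟩ | ⟨rfl, rfl⟩
    · rfl
    · exact dist_comm _ _
  have hface : ∀ f m, m ≠ f1 f → m ≠ f2 f → m ≠ f3 f →
      0 < (sg f : ℝ) * detE (p (f2 f) - p (f1 f)) (p (f3 f) - p (f1 f)) (p m - p (f1 f)) := by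
    intro f m h1 h2 h3
    have a := abs_le.1 (hdet (f1 f) (f2 f) (f3 f) m)
    have b : ((100000000000000000 : ℤ) : ℝ) < ((sg f * D0 (f1 f) (f2 f) (f3 f) m : ℤ) : ℝ) :=
      Int.cast_lt.2 (chk_face f m h1 h2 h3)
    push_cast at b
    rcases chk_sg f with e | e <;> rw [e] at b ⊢ <;> push_cast at b ⊢ <;> linarith [a.1, a.2]
  have hnon : ∀ i j k, i ≠ j → i ≠ k → j ≠ k → (∃ f, On f i ∧ On f j ∧ On f k) ∨
      ((∃ m, 0 < detE (p j - p i) (p k - p i) (p m - p i)) ∧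
        ∃ m, detE (p j - p i) (p k - p i) (p m - p i) < 0) := by
    intro i j k hij hik hjk
    rcases chk_non i j k hij hik hjk with h | ⟨⟨m, hm⟩, ⟨m', hm'⟩⟩
    · exact Or.inl h
    · refine Or.inr ⟨⟨m, ?_⟩, ⟨m', ?_⟩⟩
      · have a := abs_le.1 (hdet i j k m)
        have b : ((100000000000000000 : ℤ) : ℝ) < ((D0 i j k m : ℤ) : ℝ) := Int.cast_lt.2 hm
        push_cast at b
        linarith [a.1]
      · have a := abs_le.1 (hdet i j k m')
        have b : ((D0 i j k m' : ℤ) : ℝ) < ((-100000000000000000 : ℤ) : ℝ) := Int.cast_lt.2 hm'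
        push_cast at b
        linarith [a.2]
  have hexp : ∀ i, ∃ l : E3 →L[ℝ] ℝ, ∀ j, j ≠ i → l (p j) < l (p i) := by
    intro i
    refine ⟨(W0 i 0 : ℝ) • EuclideanSpace.proj 0 + (W0 i 1 : ℝ) • EuclideanSpace.proj 1 +
      (W0 i 2 : ℝ) • EuclideanSpace.proj 2, fun j hj => ?_⟩
    have b : ((1000000 : ℤ) : ℝ) < ((∑ k, W0 i k * (X0 i k - X0 j k) : ℤ) : ℝ) :=
      Int.cast_lt.2 (chk_exp i j hj)
    have c : ∀ k, |(W0 i k : ℝ) * ((q i k - q j k) - ((dX i j k : ℤ) : ℝ))| ≤ 100 * 40 := by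
      intro k
      have h : ((|W0 i k| : ℤ) : ℝ) ≤ ((100 : ℤ) : ℝ) := Int.cast_le.2 (chk_W i k)
      push_cast at h
      rw [abs_mul]
      exact mul_le_mul h (hd i j k) (abs_nonneg _) (by norm_num)
    have c0 := abs_le.1 (c 0)
    have c1 := abs_le.1 (c 1)
    have c2 := abs_le.1 (c 2)
    simp only [dX] at c0 c1 c2
    rw [Fin.sum_univ_three] at b
    push_cast at b c0 c1 c2
    simp only [add_apply, smul_apply,
      EuclideanSpace.coe_proj, smul_eq_mul, p]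
    nlinarith [c0.1, c1.1, c2.1]
  refine ⟨p, main_geom p f1 f2 f3 0 3 (by decide) ?_ ?_ ?_ hexp ?_,
    lattice_rigid p hexp (rigid (Tri p) fun i j k hij hik hjk => ⟨fun h => ?_, ?_⟩)⟩
  · intro f m h1 h2 h3 h0
    have := hface f m h1 h2 h3
    rw [h0, mul_zero] at this
    exact lt_irrefl _ this
  · intro i j k hij hik hjk
    refine (hnon i j k hij hik hjk).imp ?_ id
    rintro ⟨f, a, b, c⟩
    exact ⟨f, triple_eq hij hik hjk a b c⟩
  · intro f g
    refine ⟨?_, ?_, ?_⟩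
    · rw [hedge _ _ _ (chk_edge f).1, hedge _ _ _ (chk_edge g).1]
    · rw [hedge _ _ _ (chk_edge f).2.1, hedge _ _ _ (chk_edge g).2.1]
    · rw [hedge _ _ _ (chk_edge f).2.2, hedge _ _ _ (chk_edge g).2.2]
  · intro i i' hi
    obtain ⟨j, hj⟩ := chk_sig i i' hi
    refine ⟨j, fun j' h => ?_⟩
    have b : ((100000000000 : ℤ) : ℝ) < ((|Q0 i' j' - Q0 i j| : ℤ) : ℝ) := Int.cast_lt.2 (hj j')
    push_cast at b
    have a1 := abs_le.1 (hQ i' j')
    have a2 := abs_le.1 (hQ i j)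
    rw [h] at a1
    have : |(Q0 i' j' : ℝ) - Q0 i j| ≤ 2880000000 := by
      rw [abs_le]
      constructor <;> linarith [a1.1, a1.2, a2.1, a2.2]
    linarith
  · refine (hnon i j k hij hik hjk).resolve_right ?_
    rintro ⟨⟨m, hm⟩, m', hm'⟩
    exact not_tri p hm hm' h
  · rintro ⟨f, a, b, c⟩
    exact tri_of p (hface f) (chk_out f) a b c

end Pool.Agent.MP_41ddaf_co.H90
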